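import Pool.Agent.H413.G.R_seed8.H494R3.LD.C1

set_option autoImplicit false

/-!
Minimal projections in C*-algebras of real rank zero, continued.
-/

namespace Pool.Agent.H494R3.LD

open scoped ComplexOrder

section
variable {A : Type*} [NonUnitalCStarAlgebra A]

theorem exists_proj (hr : RealRankZero A) {a : A} (ha : star a = a) (h0 : a ≠ 0) :
    ∃ f : A, f ≠ 0 ∧ f * f = f ∧ star f = f ∧ (∀ c : A, c * a = a → c * f = f) ∧
      ∀ c : A, a * c = 0 → f * c = 0 := by
  have hN : 0 < ‖((star a * a : A) : Unitization ℂ A)‖ := by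
    rw [Unitization.norm_inr]
    rw [norm_pos_iff]
    intro h
    exact h0 ((CStarRing.star_mul_self_eq_zero_iff a).1 h)
  obtain ⟨y, hy, hf, hxy⟩ := hr ((star a * a : A) : Unitization ℂ A)
    (by
      rw [isSelfAdjoint_iff, ← Unitization.inr_star, star_mul, star_star])
    (‖((star a * a : A) : Unitization ℂ A)‖ / 4) (by linarith)
  have hfr : (spectrum ℝ y).Finite := by
    rw [← spectrum.preimage_algebraMap ℂ]
    exact hf.preimage (fun _ _ _ _ h => (algebraMap ℝ ℂ).injective h)
  obtain ⟨q, r, hq0, hqq, hqs, hrs, hrq, hqr, hrq'⟩ := key_unital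
    ((star a * a : A) : Unitization ℂ A) y _ hN (a : Unitization ℂ A)
    (by rw [Unitization.inr_mul, Unitization.inr_star]) le_rfl hy hfr hxy.le
  rw [ha] at hrq
  have hfst : ((a : Unitization ℂ A) * r * a).fst = 0 := by
    rw [Unitization.fst_mul, Unitization.fst_inr, mul_zero]
  obtain ⟨f, hff⟩ : ∃ f : A, (f : Unitization ℂ A) = (a : Unitization ℂ A) * r * a := by
    refine ⟨((a : Unitization ℂ A) * r * a).snd, ?_⟩
    apply Unitization.ext
    · rw [hfst]; rfl
    · rfl
  have hinj : Function.Injective (fun x : A => (x : Unitization ℂ A)) :=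
    Unitization.inr_injective
  have hr2 : r * ((a * a : A) : Unitization ℂ A) * r = r := by
    calc r * ((a * a : A) : Unitization ℂ A) * r =
        (r * q) * ((a * a : A) : Unitization ℂ A) * (q * r) := by rw [hrq', hqr]
      _ = (r * (q * ((a * a : A) : Unitization ℂ A) * q)) * r := by noncomm_ring
      _ = r := by rw [hrq, hqr]
  refine ⟨f, ?_, ?_, ?_, ?_, ?_⟩
  · intro h
    rw [h, Unitization.inr_zero] at hff
    apply hq0
    have h1 : (q * ((a * a : A) : Unitization ℂ A) * q) = 0 := by
      have h2 : (q * ((a * a : A) : Unitization ℂ A) * q) =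
          (q * ((a * a : A) : Unitization ℂ A) * q) * (r * (q * ((a * a : A) : Unitization ℂ A) * q)) := by
        rw [hrq]
        rw [mul_assoc _ q q, hqq]
      have h3 : (q * ((a * a : A) : Unitization ℂ A) * q) * (r * (q * ((a * a : A) : Unitization ℂ A) * q)) =
          q * a * (a * (q * r * q) * a) * a * q := by
        rw [Unitization.inr_mul]; noncomm_ring
      rw [h2, h3, hqr, hrq', ← hff]
      simp
    rw [h1, mul_zero] at hrq
    exact hrq.symm
  · apply hinj
    show ((f * f : A) : Unitization ℂ A) = f
    rw [Unitization.inr_mul, hff]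
    calc (a : Unitization ℂ A) * r * a * (a * r * a) =
        a * (r * ((a : Unitization ℂ A) * a) * r) * a := by noncomm_ring
      _ = _ := by rw [← Unitization.inr_mul, hr2]
  · apply hinj
    show ((star f : A) : Unitization ℂ A) = f
    rw [Unitization.inr_star, hff, star_mul, star_mul, hrs, ← Unitization.inr_star, ha, mul_assoc]
  · intro c hc
    apply hinj
    show ((c * f : A) : Unitization ℂ A) = f
    rw [Unitization.inr_mul, hff, ← mul_assoc, ← mul_assoc, ← Unitization.inr_mul, hc]
  · intro c hc
    apply hinj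
    show ((f * c : A) : Unitization ℂ A) = (0 : A)
    rw [Unitization.inr_mul, hff, mul_assoc, ← Unitization.inr_mul, hc, Unitization.inr_zero,
      mul_zero]

/-- absorbing property of positive and negative parts -/
theorem absorb {e y p n : A} (hes : star e = e) (hy : e * y = y) (hps : star p = p)
    (hyp : y = p - n) (hnp : n * p = 0) : e * p = p := by
  have h1 : y * p = p * p := by rw [hyp, sub_mul, hnp, sub_zero]
  have h2 : e * (p * p) = p * p := by rw [← h1, ← mul_assoc, hy]
  have h3 : (p * p) * e = p * p := by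
    have := congrArg star h2
    rwa [star_mul, star_mul, hps, hes] at this
  have h4 : (p - e * p) * star (p - e * p) = 0 := by
    rw [star_sub, star_mul, hps, hes]
    calc (p - e * p) * (p - p * e) = p * p - (p * p) * e - e * (p * p) + e * ((p * p) * e) := by
          noncomm_ring
      _ = 0 := by rw [h3, h2]; abel
  have h5 := (CStarRing.mul_star_self_eq_zero_iff _).1 h4
  exact (sub_eq_zero.1 h5).symm

theorem min_dichotomy (hr : RealRankZero A) {e : A} (hes : star e = e)
    (hmin : ∀ f : A, f * f = f → star f = f → e * f = f → f = 0 ∨ f = e)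
    {y p n : A} (hy : e * y = y) (hyp : y = p - n) (hps : star p = p) (hns : star n = n)
    (hpn : p * n = 0) (hnp : n * p = 0) : p = 0 ∨ n = 0 := by
  by_contra hcon
  push Not at hcon
  obtain ⟨hp0, hn0⟩ := hcon
  obtain ⟨f, hf0, hff, hfs, hf1, hf2⟩ := exists_proj hr hps hp0
  have hep : e * p = p := absorb hes hy hps hyp hnp
  have hen : e * n = n := by
    apply absorb (y := -y) (n := p) hes (by rw [mul_neg, hy]) hns (by rw [hyp]; abel) hpn
  have h1 := hf1 e hep
  have h2 := hf2 n hpn
  rcases hmin f hff hfs h1 with h | h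
  · exact hf0 h
  · rw [h, hen] at h2
    exact hn0 h2

theorem min_real (hr : RealRankZero A) {e : A} (hee : e * e = e) (hes : star e = e)
    (hmin : ∀ f : A, f * f = f → star f = f → e * f = f → f = 0 ∨ f = e)
    {x : A} (hxs : star x = x) (hx : e * x = x) (hx' : x * e = x) : ∃ c : ℝ, x = c • e := by
  let _ := CStarAlgebra.spectralOrder A
  have _ := CStarAlgebra.spectralOrderedRing A
  have he0 : 0 ≤ e := by
    have := star_mul_self_nonneg e
    rwa [hes, hee] at this
  have hdich : ∀ c : ℝ, c • e ≤ x ∨ x ≤ c • e := by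
    intro c
    have hys : IsSelfAdjoint (x - c • e) := by
      rw [isSelfAdjoint_iff, star_sub, star_smul, hxs, hes, star_trivial]
    have hey : e * (x - c • e) = x - c • e := by
      rw [mul_sub, mul_smul_comm, hx, hee]
    have h1 : (x - c • e)⁺ - (x - c • e)⁻ = x - c • e := CFC.posPart_sub_negPart _ hys
    rcases min_dichotomy hr hes hmin hey h1.symm
      (IsSelfAdjoint.of_nonneg (CFC.posPart_nonneg _)).star_eq
      (IsSelfAdjoint.of_nonneg (CFC.negPart_nonneg _)).star_eq
      (CFC.posPart_mul_negPart _) (CFC.negPart_mul_posPart _) with h | h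
    · right
      rw [h, zero_sub] at h1
      rw [← sub_nonpos, ← h1]
      exact neg_nonpos.2 (CFC.negPart_nonneg _)
    · left
      rw [h, sub_zero] at h1
      rw [← sub_nonneg, ← h1]
      exact CFC.posPart_nonneg _
  have hexe : e * x * e = x := by rw [hx, hx']
  have hup : x ≤ ‖x‖ • e := by
    have h := CStarAlgebra.star_left_conjugate_le_norm_smul (a := e) (b := x) hxs
    rwa [hes, hexe, hee] at h
  have hlow : (-‖x‖) • e ≤ x := by
    have h := CStarAlgebra.star_left_conjugate_le_norm_smul (a := e) (b := -x)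
      (by rw [isSelfAdjoint_iff, star_neg, hxs])
    rw [hes, hee, mul_neg, neg_mul, hexe, norm_neg] at h
    rw [neg_smul]
    exact neg_le.1 h
  have hc1 : IsClosed {c : ℝ | c • e ≤ x} :=
    isClosed_le (continuous_id.smul continuous_const) continuous_const
  have hc2 : IsClosed {c : ℝ | x ≤ c • e} :=
    isClosed_le continuous_const (continuous_id.smul continuous_const)
  obtain ⟨c, _, h1, h2⟩ := isPreconnected_closed_iff.1 isPreconnected_univ _ _ hc1 hc2
    (fun c _ => hdich c) ⟨-‖x‖, trivial, hlow⟩ ⟨‖x‖, trivial, hup⟩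
  exact ⟨c, le_antisymm h2 h1⟩

/-- corners at minimal projections are one-dimensional -/
theorem min_scalar (hr : RealRankZero A) {e : A} (hee : e * e = e) (hes : star e = e)
    (hmin : ∀ f : A, f * f = f → star f = f → e * f = f → f = 0 ∨ f = e) (x : A) :
    ∃ c : ℂ, e * x * e = c • e := by
  obtain ⟨y, hy⟩ : ∃ y : A, y = e * x * e := ⟨_, rfl⟩
  have hye : e * y = y := by rw [hy, ← mul_assoc, ← mul_assoc, hee]
  have hye' : y * e = y := by rw [hy, mul_assoc, hee]
  have hsy : star y * e = star y := by
    have := congrArg star hye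
    rwa [star_mul, hes] at this
  have hsy' : e * star y = star y := by
    have := congrArg star hye'
    rwa [star_mul, hes] at this
  obtain ⟨c, hc⟩ := min_real hr hee hes hmin (x := y + star y)
    (by rw [star_add, star_star, add_comm]) (by rw [mul_add, hye, hsy'])
    (by rw [add_mul, hye', hsy])
  obtain ⟨d, hd⟩ := min_real hr hee hes hmin (x := Complex.I • (y - star y))
    (by
      rw [star_smul, star_sub, star_star]
      simp only [Complex.star_def, Complex.conj_I]
      rw [neg_smul, ← smul_neg, neg_sub])
    (by rw [mul_smul_comm, mul_sub, hye, hsy'])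
    (by rw [smul_mul_assoc, sub_mul, hye', hsy])
  refine ⟨((c : ℂ) - Complex.I * d) / 2, ?_⟩
  rw [← hy]
  have hc' : y + star y = (c : ℂ) • e := by rw [hc]; exact (Complex.coe_smul c e).symm
  have hd' : Complex.I • (y - star y) = (d : ℂ) • e := by
    rw [hd]; exact (Complex.coe_smul d e).symm
  have hd'' : y - star y = (-Complex.I * d) • e := by
    calc y - star y = (-Complex.I) • (Complex.I • (y - star y)) := by
          rw [smul_smul, neg_mul, Complex.I_mul_I, neg_neg, one_smul]
      _ = _ := by rw [hd', smul_smul]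
  have h2 : (2 : ℂ) • y = ((c : ℂ) - Complex.I * d) • e := by
    calc (2 : ℂ) • y = (y + star y) + (y - star y) := by rw [two_smul]; abel
      _ = _ := by rw [hc', hd'', ← add_smul]; congr 1; ring
  calc y = (1 / 2 : ℂ) • ((2 : ℂ) • y) := by rw [smul_smul]; norm_num
    _ = _ := by rw [h2, smul_smul]; congr 1; ring

end

end Pool.Agent.H494R3.LD
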