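import Mathlib

set_option autoImplicit false

/-!
Diagrams of simplicial monoids and their liftings by von Neumann regular rings and by C*-algebras
of real rank zero.
-/

namespace Pool.Agent.H494R3.LD

/-- A commutative diagram of simplicial monoids (monoids isomorphic to some `ℕ^n`) indexed by a
partially ordered set `P`: a functor from `P` to commutative monoids. -/
structure Diag (P : Type) [PartialOrder P] where
  obj : P → Type
  mon : ∀ p, AddCommMonoid (obj p)
  simplicial : ∀ p, ∃ n : ℕ, Nonempty (obj p ≃+ (Fin n → ℕ))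
  map : ∀ p q : P, p ≤ q → (obj p →+ obj q)
  map_id : ∀ (p : P) (x : obj p), map p p le_rfl x = x
  map_comp : ∀ (p q r : P) (h : p ≤ q) (h' : q ≤ r) (x : obj p),
    map q r h' (map p q h x) = map p r (h.trans h') x

instance {P : Type} [PartialOrder P] (M : Diag P) (p : P) : AddCommMonoid (M.obj p) := M.mon p

/-- The block diagonal matrix `diag(e, f)`. -/
def bdiag {R : Type*} [Zero R] {m n : ℕ} (e : Matrix (Fin m) (Fin m) R)
    (f : Matrix (Fin n) (Fin n) R) : Matrix (Fin (m + n)) (Fin (m + n)) R :=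
  (Matrix.fromBlocks e 0 0 f).submatrix finSumFinEquiv.symm finSumFinEquiv.symm

/-- `φ` induces an isomorphism from `V(R)` onto the monoid `N`: it is a function on the idempotent
matrices over `R`, two idempotents have the same value if and only if they are equivalent
(`e = x y`, `f = y x`), it turns block sums into sums, and it is surjective. -/
structure IsVRing (R : Type*) [NonUnitalRing R] (N : Type*) [AddCommMonoid N]
    (φ : ∀ k : ℕ, Matrix (Fin k) (Fin k) R → N) : Prop where
  equiv : ∀ (k l : ℕ) (e : Matrix (Fin k) (Fin k) R) (f : Matrix (Fin l) (Fin l) R),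
    e * e = e → f * f = f → (φ k e = φ l f ↔
      ∃ (x : Matrix (Fin k) (Fin l) R) (y : Matrix (Fin l) (Fin k) R), x * y = e ∧ y * x = f)
  add : ∀ (k l : ℕ) (e : Matrix (Fin k) (Fin k) R) (f : Matrix (Fin l) (Fin l) R),
    e * e = e → f * f = f → φ (k + l) (bdiag e f) = φ k e + φ l f
  surj : ∀ m : N, ∃ (k : ℕ) (e : Matrix (Fin k) (Fin k) R), e * e = e ∧ φ k e = m

/-- `φ` induces an isomorphism from `V(A)` onto the monoid `N`, for a C*-algebra `A`: it is a
function on the projection matrices over `A`, two projections have the same value if and only if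
they are Murray-von Neumann equivalent (`p = v* v`, `q = v v*`), it turns block sums into sums, and
it is surjective. -/
structure IsVStar (A : Type*) [NonUnitalCStarAlgebra A] (N : Type*) [AddCommMonoid N]
    (φ : ∀ k : ℕ, Matrix (Fin k) (Fin k) A → N) : Prop where
  equiv : ∀ (k l : ℕ) (p : Matrix (Fin k) (Fin k) A) (q : Matrix (Fin l) (Fin l) A),
    p * p = p → p.conjTranspose = p → q * q = q → q.conjTranspose = q → (φ k p = φ l q ↔
      ∃ v : Matrix (Fin l) (Fin k) A, v.conjTranspose * v = p ∧ v * v.conjTranspose = q)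
  add : ∀ (k l : ℕ) (p : Matrix (Fin k) (Fin k) A) (q : Matrix (Fin l) (Fin l) A),
    p * p = p → p.conjTranspose = p → q * q = q → q.conjTranspose = q →
      φ (k + l) (bdiag p q) = φ k p + φ l q
  surj : ∀ m : N, ∃ (k : ℕ) (p : Matrix (Fin k) (Fin k) A),
    p * p = p ∧ p.conjTranspose = p ∧ φ k p = m

/-- The diagram lifts with respect to `V` by a commutative diagram of von Neumann regular rings
(not necessarily unital) and ring homomorphisms. -/
def LiftsReg {P : Type} [PartialOrder P] (M : Diag P) : Prop :=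
  ∃ (R : P → Type) (_ : ∀ p, NonUnitalRing (R p)) (F : ∀ p q : P, p ≤ q → (R p →ₙ+* R q))
    (φ : ∀ (p : P) (k : ℕ), Matrix (Fin k) (Fin k) (R p) → M.obj p),
    (∀ (p : P) (x : R p), ∃ y : R p, x * y * x = x) ∧
    (∀ (p : P) (x : R p), F p p le_rfl x = x) ∧
    (∀ (p q r : P) (h : p ≤ q) (h' : q ≤ r) (x : R p),
      F q r h' (F p q h x) = F p r (h.trans h') x) ∧
    (∀ p : P, IsVRing (R p) (M.obj p) (φ p)) ∧
    ∀ (p q : P) (h : p ≤ q) (k : ℕ) (e : Matrix (Fin k) (Fin k) (R p)), e * e = e →
      φ q k (e.map (F p q h)) = M.map p q h (φ p k e)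

/-- The diagram lifts with respect to `V` by a commutative diagram of unital von Neumann regular
rings and unit-preserving ring homomorphisms. -/
def LiftsRegUnital {P : Type} [PartialOrder P] (M : Diag P) : Prop :=
  ∃ (R : P → Type) (_ : ∀ p, Ring (R p)) (F : ∀ p q : P, p ≤ q → (R p →+* R q))
    (φ : ∀ (p : P) (k : ℕ), Matrix (Fin k) (Fin k) (R p) → M.obj p),
    (∀ (p : P) (x : R p), ∃ y : R p, x * y * x = x) ∧
    (∀ (p : P) (x : R p), F p p le_rfl x = x) ∧
    (∀ (p q r : P) (h : p ≤ q) (h' : q ≤ r) (x : R p),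
      F q r h' (F p q h x) = F p r (h.trans h') x) ∧
    (∀ p : P, IsVRing (R p) (M.obj p) (φ p)) ∧
    ∀ (p q : P) (h : p ≤ q) (k : ℕ) (e : Matrix (Fin k) (Fin k) (R p)), e * e = e →
      φ q k (e.map (F p q h)) = M.map p q h (φ p k e)

/-- A C*-algebra has real rank zero: every self-adjoint element of its unitization is a norm limit
of self-adjoint elements with finite spectrum. -/
def RealRankZero (A : Type*) [NonUnitalCStarAlgebra A] : Prop :=
  ∀ x : Unitization ℂ A, IsSelfAdjoint x → ∀ ε : ℝ, 0 < ε →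
    ∃ y : Unitization ℂ A, IsSelfAdjoint y ∧ (spectrum ℂ y).Finite ∧ ‖x - y‖ < ε

universe u

/-- The diagram lifts with respect to `V` by a commutative diagram of C*-algebras of real rank
zero (not necessarily unital, carriers in `Type u`) and `*`-homomorphisms. -/
def LiftsRR0 {P : Type} [PartialOrder P] (M : Diag P) : Prop :=
  ∃ (A : P → Type u) (_ : ∀ p, NonUnitalCStarAlgebra (A p))
    (F : ∀ p q : P, p ≤ q → (A p →⋆ₙₐ[ℂ] A q))
    (φ : ∀ (p : P) (k : ℕ), Matrix (Fin k) (Fin k) (A p) → M.obj p),
    (∀ p : P, RealRankZero (A p)) ∧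
    (∀ (p : P) (x : A p), F p p le_rfl x = x) ∧
    (∀ (p q r : P) (h : p ≤ q) (h' : q ≤ r) (x : A p),
      F q r h' (F p q h x) = F p r (h.trans h') x) ∧
    (∀ p : P, IsVStar (A p) (M.obj p) (φ p)) ∧
    ∀ (p q : P) (h : p ≤ q) (k : ℕ) (e : Matrix (Fin k) (Fin k) (A p)), e * e = e →
      e.conjTranspose = e → φ q k (e.map (F p q h)) = M.map p q h (φ p k e)

end Pool.Agent.H494R3.LD
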